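import Pool.Agent.H297.WP.B11

/-!
MP_6a3f1a_al (Alperin's weight conjecture in the alternating-sum form of Knörr and Robinson).

* `IsPChain`, `chainStabilizer`, `alternatingSum` (Pool/Agent/Y63/KR/Defs.lean): `alternatingSum p G f`
  is `∑_c (-1)^|c| f(G_c)`, over representatives `c` of the classes of chains of nontrivial
  `p`-subgroups of `G`, the empty chain included; this is the sum of Q1 if `O_p(G) = 1`.
* `IsClassFun`, `conv`, `IsBlock`, `centralValue` (Pool/Agent/Y63/NV/Defs.lean): a block `B` of `G` is
  given by its central character, a homomorphism of algebras from the centre of `F[G]` (the class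
  functions with the convolution) to the algebraically closed field `F` of characteristic `p`;
  `centralValue red χ` is the reduction of the central character of `χ`, for a reduction map `red`
  from the algebraic integers to `F`.
* `numIrrInd red H B`, `numDzBlock p red B`, `Knum`, `Nw` (Pool/Agent/Y63/NV/Stm5.lean, Defs.lean): the
  number of `ϑ ∈ Irr(H)` with `bl(ϑ)^G = B`; the number of characters of defect zero in `B` (`0` or
  `1`); the numbers of characters, and of characters of defect zero, with reduced central character
  `c` at a given central element.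
* `Wr p G` (Pool/Agent/H297/WP/Wr.lean): the wreath product `G ≀ C_p`; `Idem e`: `e` is an idempotent
  of the centre of `F[G]`; `zw e` is the idempotent `e ⊗ ⋯ ⊗ e` of the base group of `G ≀ C_p`;
  `ItP p n (G, e)` is the result of `n` applications of `(G, e) ↦ (G ≀ C_p, zw e)`.
* `sKb red p e 1` is `∑_σ (-1)^|σ| k(G_σ | e)`, where `k(H | e)` counts the `ϑ ∈ Irr(H)` whose reduced
  central character maps the restriction of `e` to `1`; `Nw p red ⊥ e 1` counts the characters of
  defect zero of `G` whose reduced central character maps `e` to `1`.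
-/

set_option autoImplicit false

namespace Pool.Agent.Results.MP_6a3f1a_al.ModPBlocks

open Pool.Agent.Y63.NV
open Pool.Agent.Y63.KR (IsPChain chainStabilizer alternatingSum)
open Pool.Agent.H297.WP

/-- **The alternating sum conjecture is decided by congruences modulo `p`.**
1. Let `X` be a class of groups closed under `G ↦ G ≀ C_p` (for example all groups). Then
`∑_σ (-1)^|σ| k(B_σ) = z(B)` for all blocks `B` of all finite groups `G` in `X` if and only if
`∑_σ (-1)^|σ| k(B_σ) ≡ z(B) (mod p)` for all blocks `B` of all finite groups `G` in `X`; here `z(B)`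
is `1` if `B` has defect zero and `0` otherwise.
2. Let `B` be a block of a finite group `G`, and let `e` be its block idempotent. Then
`∑_σ (-1)^|σ| k(B_σ) = z(B)` if and only if the sums for the groups `G ≀ C_p ≀ ⋯ ≀ C_p` and the
idempotents `e_n` made from `e` satisfy `∑_σ (-1)^|σ| k(σ | e_n) ≡ z(e_n) (mod p)` for all `n`. -/
theorem result (p : ℕ) [Fact p.Prime] (F : Type) [Field F] [IsAlgClosed F] [CharP F p]
    (red : integralClosure ℤ ℂ →+* F) :
    (∀ X : (∀ (G : Type) [Group G], Prop),
      (∀ (G : Type) [Group G] [Finite G], X G → X (Wr p G)) →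
      ((∀ (G : Type) [Group G] [Finite G], X G → ∀ B : (G → F) → F, IsBlock B →
          alternatingSum p G (fun H => (numIrrInd red H B : ℤ)) = numDzBlock p red B) ↔
        ∀ (G : Type) [Group G] [Finite G], X G → ∀ B : (G → F) → F, IsBlock B →
          alternatingSum p G (fun H => (numIrrInd red H B : ℤ)) ≡
            numDzBlock p red B [ZMOD p])) ∧
    ∀ (G : Type) [Group G] [Finite G] (B : (G → F) → F), IsBlock B →
      ∃ e : G → F, Idem e ∧ B e = 1 ∧
        (∀ B' : (G → F) → F, IsBlock B' → B' e = 1 → ∀ f : G → F, IsClassFun f → B' f = B f) ∧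
        (alternatingSum p G (fun H => (numIrrInd red H B : ℤ)) = numDzBlock p red B ↔
          ∀ n : ℕ, sKb red p (ItP p n ⟨GrpCat.of G, e⟩).fn 1 ≡
            Nw p red ⊥ (ItP p n ⟨GrpCat.of G, e⟩).fn 1 [ZMOD p]) := by
  refine ⟨fun X hX => ?_, fun G _ _ B hB => ?_⟩
  · have h := krb_class (p := p) red X hX
    constructor
    · intro h1 G _ _ hG B hB
      rw [h1 G hG B hB]
    · intro h1
      exact h.2 fun G _ _ hG B hB => Int.modEq_iff_dvd.1 (h1 G hG B hB).symm
  · obtain ⟨e, h1, h2, h3, h4⟩ := exists_dB (p := p) red hB
    refine ⟨e, h1, h2, h3, ?_⟩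
    have h5 := dZ_tower (p := p) red G e h1
    rw [← h4] at h5
    rw [← sub_eq_zero]
    refine h5.trans (forall_congr' fun n => ?_)
    rw [Int.modEq_comm, Int.modEq_iff_dvd]
    exact Iff.rfl

end Pool.Agent.Results.MP_6a3f1a_al.ModPBlocks
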